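import Pool.Agent.Lib.ALL_h83.Der
import Pool.Agent.Lib.ALL.Defs

/-!
# `A_∞` and the localised integral closure (R7 of block X)
-/

set_option autoImplicit false

open Submodule Module

namespace Pool.Agent.ALL83

open Pool.Agent.TA
open Pool.Agent.H15JM (RVal)
open Pool.Agent.LU1 (VPos locv)
open Pool.Agent.ALL (FR icl ICl)

universe u

section ICl

variable {k Ω : Type u} [Field k] [Field Ω] [Algebra k Ω] {v : RVal Ω} {r D : ℕ} {ι : Type}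
  [Fintype ι]

theorem isIntegral_of_le {R S : Subalgebra k Ω} (h : R ≤ S) {f : Ω} (hf : IsIntegral R f) :
    IsIntegral S f := by
  obtain ⟨P, hP, hPf⟩ := hf
  refine ⟨P.map (Subalgebra.inclusion h).toRingHom, hP.map _, ?_⟩
  rw [Polynomial.eval₂_map]
  exact hPf

/-- A normal subalgebra contains the integral elements of its field of fractions. -/
theorem mem_of_integral {S : Subalgebra k Ω} (hic : IsIntegrallyClosed S)
    {E : IntermediateField k Ω} (hSE : ∀ f ∈ S, f ∈ E)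
    (hfrac : ∀ f ∈ E, ∃ a ∈ S, ∃ b ∈ S, b ≠ 0 ∧ f = a / b) {f : Ω} (hfE : f ∈ E)
    (hf : IsIntegral S f) : f ∈ S := by
  let _ : Algebra S E := (({ toFun := fun a => ⟨a, hSE a a.2⟩
                             map_one' := rfl
                             map_mul' := fun _ _ => rfl
                             map_zero' := rfl
                             map_add' := fun _ _ => rfl } : S →+* E)).toAlgebra
  have hcoe : ∀ a : S, ((algebraMap S E a : E) : Ω) = a := fun _ => rfl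
  have htower : IsScalarTower S E Ω := by
    refine ⟨fun a e y => ?_⟩
    change ((a • e : E) : Ω) * y = (a : Ω) * ((e : Ω) * y)
    have h1 : ((a • e : E) : Ω) = (a : Ω) * (e : Ω) := rfl
    rw [h1, mul_assoc]
  have hfr : IsFractionRing S E := by
    refine ⟨?_, ?_, ?_⟩
    · intro b
      have hb0 : (b : S) ≠ 0 := nonZeroDivisors.ne_zero b.2
      exact IsUnit.mk0 _ fun h => hb0 (Subtype.ext (congrArg (fun e : E => (e : Ω)) h))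
    · intro z
      obtain ⟨a, ha, b, hb, hb0, hab⟩ := hfrac z z.2
      refine ⟨(⟨a, ha⟩, ⟨⟨b, hb⟩, mem_nonZeroDivisors_of_ne_zero fun h => hb0 ?_⟩), ?_⟩
      · exact congrArg (fun e : S => (e : Ω)) h
      · apply Subtype.ext
        change (z : Ω) * b = a
        rw [hab, div_mul_cancel₀ _ hb0]
    · intro a b hab
      have h1 : a = b := Subtype.ext (congrArg (fun e : E => (e : Ω)) hab)
      exact ⟨1, by rw [h1]⟩
  have hfi : IsIntegral S (⟨f, hfE⟩ : E) := by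
    have h1 : (algebraMap E Ω) (⟨f, hfE⟩ : E) = f := rfl
    rw [← h1] at hf
    exact (isIntegral_algebraMap_iff (algebraMap E Ω).injective).1 hf
  obtain ⟨y, hy⟩ := (isIntegrallyClosed_iff E).1 hic hfi
  have h2 : (y : Ω) = f := by
    have h3 := congrArg (fun e : E => (e : Ω)) hy
    exact h3
  rw [← h2]
  exact y.2

/-- The hypotheses which relate a frame to toric data. -/
structure Rel (F : FR k v D) (T : TD k v r ι) (E : IntermediateField k Ω) : Prop where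
  R_le : F.R ≤ Ainf T
  le_C : Ainf T ≤ ICl v F.R E
  Γ_mem : ∀ l : Fin r → ℤ, v (mx T.x l) ∈ F.Γ
  χ_eq : ∀ l : Fin r → ℤ, F.χ (v (mx T.x l)) = mx T.x l
  Γ_ex : ∀ γ ∈ F.Γ, ∃ l : Fin r → ℤ, γ = v (mx T.x l)

variable {F : FR k v D} {T : TD k v r ι} {E : IntermediateField k Ω}

theorem MonoIn.of_mon (h : Rel F T E) {f : Ω} (hf : IsMon T f) : F.MonoIn (ICl v F.R E) f := by
  obtain ⟨l, u, hu, rfl⟩ := hf
  have h1 : v (mx T.x l * u) = v (mx T.x l) := by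
    rw [v.map_mul (mx_ne T.x_ne _) hu.2.1, hu.2.2, add_zero]
  refine ⟨mul_ne_zero (mx_ne T.x_ne _) hu.2.1, ?_, ?_⟩
  · rw [h1]; exact h.Γ_mem l
  · rw [h1, h.χ_eq, mul_div_cancel_left₀ _ (mx_ne T.x_ne _)]
    exact h.le_C hu.1

theorem MonoIn.mul {S : Subalgebra k Ω} {f g : Ω} (hf : F.MonoIn S f) (hg : F.MonoIn S g) :
    F.MonoIn S (f * g) := by
  have h1 := v.map_mul hf.1 hg.1
  refine ⟨mul_ne_zero hf.1 hg.1, ?_, ?_⟩
  · rw [h1]; exact F.Γ.add_mem hf.2.1 hg.2.1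
  · rw [h1, F.χ_add _ hf.2.1 _ hg.2.1, mul_div_mul_comm]
    exact S.mul_mem hf.2.2 hg.2.2

theorem MonoIn.pow {S : Subalgebra k Ω} {f : Ω} (hf : F.MonoIn S f) (e : ℕ) : F.MonoIn S (f ^ (e + 1)) := by
  induction e with
  | zero => rw [zero_add, pow_one]; exact hf
  | succ e ih => rw [pow_succ]; exact MonoIn.mul ih hf

theorem χ_zero (F : FR k v D) : F.χ 0 = 1 := by
  have h1 := F.χ_add 0 F.Γ.zero_mem 0 F.Γ.zero_mem
  rw [add_zero] at h1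
  have h2 := F.χ_ne 0 F.Γ.zero_mem
  exact mul_left_cancel₀ h2 (by rw [mul_one]; exact h1.symm)

theorem χ_neg (F : FR k v D) {γ : ℝ} (hγ : γ ∈ F.Γ) : F.χ (-γ) = (F.χ γ)⁻¹ := by
  have h1 := F.χ_add _ (F.Γ.neg_mem hγ) _ hγ
  rw [neg_add_cancel, χ_zero] at h1
  exact eq_inv_of_mul_eq_one_left h1.symm

/-- `S[1/χ]`. -/
def SX (F : FR k v D) (S : Subalgebra k Ω) (hS : ∀ γ ∈ F.Γ, 0 ≤ γ → F.χ γ ∈ S) :
    Subalgebra k Ω where
  carrier := {f | ∃ γ ∈ F.Γ, 0 ≤ γ ∧ F.χ γ * f ∈ S}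
  mul_mem' := by
    rintro f g ⟨γ, hγ, hγ0, hf⟩ ⟨δ, hδ, hδ0, hg⟩
    refine ⟨γ + δ, F.Γ.add_mem hγ hδ, add_nonneg hγ0 hδ0, ?_⟩
    have h1 := S.mul_mem hf hg
    have h2 : F.χ (γ + δ) * (f * g) = F.χ γ * f * (F.χ δ * g) := by
      rw [F.χ_add _ hγ _ hδ]; ring
    rwa [h2]
  add_mem' := by
    rintro f g ⟨γ, hγ, hγ0, hf⟩ ⟨δ, hδ, hδ0, hg⟩
    refine ⟨γ + δ, F.Γ.add_mem hγ hδ, add_nonneg hγ0 hδ0, ?_⟩
    have h1 := S.mul_mem (hS δ hδ hδ0) hf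
    have h2 := S.mul_mem (hS γ hγ hγ0) hg
    have h3 : F.χ (γ + δ) * (f + g) = F.χ δ * (F.χ γ * f) + F.χ γ * (F.χ δ * g) := by
      rw [F.χ_add _ hγ _ hδ]; ring
    rw [h3]
    exact S.add_mem h1 h2
  algebraMap_mem' := fun c => ⟨0, F.Γ.zero_mem, le_rfl, by
    rw [χ_zero, one_mul]; exact S.algebraMap_mem c⟩

theorem mem_SX {S : Subalgebra k Ω} {hS : ∀ γ ∈ F.Γ, 0 ≤ γ → F.χ γ ∈ S} {f : Ω} :
    f ∈ SX F S hS ↔ ∃ γ ∈ F.Γ, 0 ≤ γ ∧ F.χ γ * f ∈ S := Iff.rfl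

theorem le_SX {S : Subalgebra k Ω} {hS : ∀ γ ∈ F.Γ, 0 ≤ γ → F.χ γ ∈ S} : S ≤ SX F S hS :=
  fun f hf => ⟨0, F.Γ.zero_mem, le_rfl, by rw [χ_zero, one_mul]; exact hf⟩

theorem χ_inv_mem_SX {S : Subalgebra k Ω} {hS : ∀ γ ∈ F.Γ, 0 ≤ γ → F.χ γ ∈ S} {γ : ℝ}
    (hγ : γ ∈ F.Γ) : F.χ γ ∈ SX F S hS := by
  rcases le_total 0 γ with h | h
  · exact le_SX (hS γ hγ h)
  · refine ⟨-γ, F.Γ.neg_mem hγ, by linarith, ?_⟩
    rw [χ_neg F hγ, inv_mul_cancel₀ (F.χ_ne γ hγ)]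
    exact S.one_mem

theorem χ_mem_ICl (h : Rel F T E) {γ : ℝ} (hγ : γ ∈ F.Γ) (h0 : 0 ≤ γ) :
    F.χ γ ∈ ICl v F.R E := by
  obtain ⟨l, rfl⟩ := h.Γ_ex γ hγ
  rw [h.χ_eq]
  exact h.le_C (Apos_le_Ainf T (mx_mem_Apos T h0))

theorem MonoIn.inv_mem (h : Rel F T E) {b : Ω} (hb : F.MonoIn (ICl v F.R E) b) :
    b⁻¹ ∈ SX F (ICl v F.R E) (fun _ hγ h0 => χ_mem_ICl h hγ h0) := by
  obtain ⟨hb0, hbΓ, hbC⟩ := hb
  have hχ := F.χ_ne _ hbΓ
  have h1 : b⁻¹ = F.χ (-(v b)) * (b / F.χ (v b))⁻¹ := by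
    rw [χ_neg F hbΓ, inv_div, div_eq_mul_inv, ← mul_assoc, inv_mul_cancel₀ hχ, one_mul]
  rw [h1]
  refine Subalgebra.mul_mem _ (χ_inv_mem_SX (F.Γ.neg_mem hbΓ)) (le_SX ?_)
  refine LU1.locv_inv hbC (div_ne_zero hb0 hχ) ?_
  rw [v.map_div hb0 hχ, F.χ_val _ hbΓ, sub_self]

theorem AinfX_le_SX (h : Rel F T E) :
    AinfX T ≤ SX F (ICl v F.R E) (fun _ hγ h0 => χ_mem_ICl h hγ h0) := by
  rintro f ⟨l, hl, hf⟩
  refine ⟨v (mx T.x l), h.Γ_mem l, hl, ?_⟩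
  rw [h.χ_eq]
  exact h.le_C hf

/-- The standing data: `T` comes from `V ^ m`. -/
structure Dat (T : TD k v r ι) (E : IntermediateField k Ω) (V : Submodule k Ω) (m : ℕ)
    (f₀ : Ω) : Prop where
  triv : ∀ c : k, c ≠ 0 → v (algebraMap k Ω c) = 0
  one : (1 : Ω) ∈ V
  le_E : ∀ y ∈ V, y ∈ E
  V_le : V ≤ V ^ m
  mem : f₀ ∈ V ^ m
  ne : f₀ ≠ 0
  span : span k (Set.range fun j => T.b j * mx T.x (T.a j)) = span k {f₀⁻¹} * V ^ m
  ic : IsIntegrallyClosed (Algebra.adjoin k (V : Set Ω))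
  frac : ∀ z ∈ E, ∃ a ∈ Algebra.adjoin k (V : Set Ω), ∃ b ∈ Algebra.adjoin k (V : Set Ω),
    b ≠ 0 ∧ z = a / b

variable {V : Submodule k Ω} {m : ℕ} {f₀ : Ω}

theorem Dat.kV_le_E (hd : Dat T E V m f₀) {f : Ω} (hf : f ∈ Algebra.adjoin k (V : Set Ω)) :
    f ∈ E := by
  have h1 : Algebra.adjoin k (V : Set Ω) ≤ E.toSubalgebra := by
    rw [Algebra.adjoin_le_iff]
    exact fun y hy => hd.le_E y hy
  exact h1 hf

theorem Dat.AinfX_iff (hd : Dat T E V m f₀) {f : Ω} : f ∈ AinfX T ↔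
    ∃ a ∈ Algebra.adjoin k (V : Set Ω), ∃ b ∈ Algebra.adjoin k (V : Set Ω),
      IsMon T b ∧ f = a / b :=
  mem_AinfX_iff hd.triv T hd.one hd.V_le hd.mem hd.ne hd.span

theorem Dat.AinfX_le_E (hd : Dat T E V m f₀) {f : Ω} (hf : f ∈ AinfX T) : f ∈ E := by
  obtain ⟨a, ha, b, hb, -, rfl⟩ := hd.AinfX_iff.1 hf
  exact div_mem (hd.kV_le_E ha) (hd.kV_le_E hb)

theorem Dat.kV_le (hd : Dat T E V m f₀) : Algebra.adjoin k (V : Set Ω) ≤ AinfX T :=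
  adjoin_le_AinfX hd.triv T hd.one hd.V_le hd.mem hd.ne hd.span

/-- `A_∞[1/χ]` contains the elements of `E` integral over it. -/
theorem Dat.mem_of_integral (hd : Dat T E V m f₀) {f : Ω} (hfE : f ∈ E)
    (hf : IsIntegral (AinfX T) f) : f ∈ AinfX T :=
  ALL83.mem_of_integral (isIntegrallyClosed_AinfX hd.triv T hd.one hd.V_le hd.mem hd.ne hd.span
    hd.ic) (fun _ => hd.AinfX_le_E) (fun f hf => by
      obtain ⟨a, ha, b, hb, hb0, hab⟩ := hd.frac f hf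
      exact ⟨a, hd.kV_le ha, b, hd.kV_le hb, hb0, hab⟩) hfE hf

/-- The integral closure is contained in `A_∞[1/χ]`. -/
theorem Dat.icl_le (hd : Dat T E V m f₀) (h : Rel F T E) : icl F.R E ≤ AinfX T := fun _ hf =>
  hd.mem_of_integral hf.1 (isIntegral_of_le (h.R_le.trans (Ainf_le_AinfX T)) hf.2)

/-- **R7**: the elements of the localised integral closure are quotients of elements of `k[V]` with
monomial denominators. -/
theorem Dat.den (hd : Dat T E V m f₀) (h : Rel F T E) {f : Ω} (hf : f ∈ ICl v F.R E) :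
    ∃ a ∈ Algebra.adjoin k (V : Set Ω), ∃ b ∈ Algebra.adjoin k (V : Set Ω),
      F.MonoIn (ICl v F.R E) b ∧ f = a / b := by
  obtain ⟨a, ha, s, hs, hs0, hvs, rfl⟩ := hf
  obtain ⟨a₁, ha₁, b₁, hb₁, hbm₁, hab₁⟩ := hd.AinfX_iff.1 (hd.icl_le h ha)
  obtain ⟨s₁, hs₁, b₂, hb₂, hbm₂, hab₂⟩ := hd.AinfX_iff.1 (hd.icl_le h hs)
  have hsC : s ∈ ICl v F.R E := LU1.le_locv _ hs
  have hsm : F.MonoIn (ICl v F.R E) s := by
    refine ⟨hs0, by rw [hvs]; exact F.Γ.zero_mem, ?_⟩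
    rw [hvs, χ_zero, div_one]
    exact hsC
  have hs₁' : s₁ = s * b₂ := by rw [hab₂, div_mul_cancel₀ _ hbm₂.ne]
  refine ⟨a₁ * b₂, Subalgebra.mul_mem _ ha₁ hb₂, b₁ * s₁, Subalgebra.mul_mem _ hb₁ hs₁,
    MonoIn.mul (MonoIn.of_mon h hbm₁) ?_, ?_⟩
  · rw [hs₁']
    exact MonoIn.mul hsm (MonoIn.of_mon h hbm₂)
  · have h1 := hbm₁.ne
    have h2 := hbm₂.ne
    rw [hab₁, hs₁']
    field_simp

/-- **R7**, with the denominators in the algebra generated by a given finite set. -/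
theorem Dat.den' (hd : Dat T E V m f₀) (h : Rel F T E) {Z : Finset Ω} {b₀ : Ω}
    (hb₀ : b₀ ∈ Algebra.adjoin k (Z : Set Ω)) (hbm₀ : IsMon T b₀)
    (hV : ∀ y ∈ V, b₀ * y ∈ Algebra.adjoin k (Z : Set Ω)) {f : Ω} (hf : f ∈ ICl v F.R E) :
    ∃ a ∈ Algebra.adjoin k (Z : Set Ω), ∃ b ∈ Algebra.adjoin k (Z : Set Ω),
      F.MonoIn (ICl v F.R E) b ∧ f = a / b := by
  obtain ⟨a, ha, b, hb, hbm, hab⟩ := hd.den h hf
  obtain ⟨N₁, hN₁⟩ := exists_pow_mul_mem hb₀ hV ha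
  obtain ⟨N₂, hN₂⟩ := exists_pow_mul_mem hb₀ hV hb
  refine ⟨b₀ ^ (N₁ + N₂) * a, hN₁ _ (by omega), b₀ ^ (N₁ + N₂) * b, hN₂ _ (by omega),
    MonoIn.mul (MonoIn.of_mon h (hbm₀.pow _)) hbm, ?_⟩
  rw [mul_div_mul_left _ _ (pow_ne_zero _ hbm₀.ne), hab]

/-- A multiplier of `A_∞[1/χ]` for the logarithmic derivations is one for the localised integral
closure. -/
theorem Dat.der_of (hd : Dat T E V m f₀) (h : Rel F T E) {G : Ω} (δ : Derivation k E E)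
    (hG : ∀ z : E, (z : Ω) ∈ AinfX T → G * (δ z : E) ∈ AinfX T)
    (f : E) (hf : (f : Ω) ∈ ICl v F.R E) :
    ∃ γ ∈ F.Γ, F.χ γ * (G * ((δ f : E) : Ω)) ∈ ICl v F.R E := by
  obtain ⟨a, ha, b, hb, hbm, hab⟩ := hd.den h hf
  obtain ⟨aE, haE⟩ : ∃ aE : E, (aE : Ω) = a := ⟨⟨a, hd.kV_le_E ha⟩, rfl⟩
  obtain ⟨bE, hbE⟩ : ∃ bE : E, (bE : Ω) = b := ⟨⟨b, hd.kV_le_E hb⟩, rfl⟩
  have hb0 : bE ≠ 0 := fun h' => hbm.1 (by rw [← hbE, h']; rfl)
  have h2 : aE = f * bE := by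
    apply Subtype.ext
    change (aE : Ω) = (f : Ω) * (bE : Ω)
    rw [haE, hbE, hab, div_mul_cancel₀ _ hbm.1]
  have h4 : δ f = bE⁻¹ * (δ aE - f * δ bE) := by
    rw [h2, Derivation.leibniz]
    simp only [smul_eq_mul]
    have h5 : f * δ bE + bE * δ f - f * δ bE = bE * δ f := by ring
    rw [h5, inv_mul_cancel_left₀ hb0]
  have h6 := AinfX_le_SX h (hG aE (by rw [haE]; exact hd.kV_le ha))
  have h7 := AinfX_le_SX h (hG bE (by rw [hbE]; exact hd.kV_le hb))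
  have h8 : G * ((δ f : E) : Ω) ∈ SX F (ICl v F.R E) (fun _ hγ h0 => χ_mem_ICl h hγ h0) := by
    rw [h4]
    have h9 : G * ((bE⁻¹ * (δ aE - f * δ bE) : E) : Ω) =
        b⁻¹ * (G * ((δ aE : E) : Ω) - (f : Ω) * (G * ((δ bE : E) : Ω))) := by
      change G * ((bE : Ω)⁻¹ * ((δ aE : E) - (f : Ω) * (δ bE : E))) = _
      rw [hbE]
      ring
    rw [h9]
    exact Subalgebra.mul_mem _ (MonoIn.inv_mem h hbm)
      (Subalgebra.sub_mem _ h6 (Subalgebra.mul_mem _ (le_SX hf) h7))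
  obtain ⟨γ, hγ, -, h10⟩ := mem_SX.1 h8
  exact ⟨γ, hγ, h10⟩

/-- `Q` times a logarithmic derivation preserves `A_∞[1/χ]`. -/
theorem Dat.logD_mem (hd : Dat T E V m f₀) (h : Rel F T E)
    {d : Fin r ⊕ Fin D → Derivation k E E} {w : Fin r ⊕ Fin D → E}
    (hspan : ∀ (δ : Derivation k E E) (z : E), δ z = ∑ e, δ (w e) * d e z)
    {h₀ : Ω} {c₀ : ℕ} (hh₀0 : h₀ ≠ 0) (hh₀ : h₀ ∈ V ^ c₀) (hc₀ : c₀ ≤ m)
    (hdV : ∀ e, ∀ z : E, (z : Ω) ∈ V → h₀ * (d e z : E) ∈ V ^ c₀)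
    {x : Fin r → E} (hx : ∀ q, (x q : Ω) = T.x q) {y : Fin D → E}
    (hy : ∀ i, (y i : Ω) = F.y i) (hyA : ∀ i, F.y i ∈ AinfX T) (hdet : (Jm d x y).det ≠ 0)
    {μ Q : Ω} (hμ : IsMon T μ) (hQ : (((Jm d x y).det : E) : Ω) = μ * Q)
    (δ : Derivation k E E) (hδ : F.LogD δ) {z : E} (hz : (z : Ω) ∈ AinfX T) :
    Q * (δ z : E) ∈ AinfX T := by
  obtain ⟨B, hB⟩ : ∃ B : Subalgebra k E, ∀ e : E, e ∈ B ↔ (e : Ω) ∈ AinfX T :=
    ⟨(AinfX T).comap E.val, fun e => Iff.rfl⟩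
  have hx0 : ∀ q, x q ≠ 0 := fun q h' => T.x_ne q (by rw [← hx, h']; rfl)
  have hxs : ∀ q, T.x q = mx T.x (Pi.single q 1) := fun q => by rw [mx_single, zpow_one]
  have hxB : ∀ q, x q ∈ B := fun q => by
    rw [hB, hx, hxs]; exact (IsMon.mx T _).mem
  have hxiB : ∀ q, (x q)⁻¹ ∈ B := fun q => by
    rw [hB]
    change (x q : Ω)⁻¹ ∈ _
    rw [hx, hxs]
    exact (IsMon.mx T _).inv.mem
  have hyB : ∀ i, y i ∈ B := fun i => by rw [hB, hy]; exact hyA i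
  have hδx : ∀ q, ∃ c : k, (x q)⁻¹ * δ (x q) = algebraMap k E c := by
    intro q
    obtain ⟨c, hc⟩ := hδ.1 _ (h.Γ_mem (Pi.single q 1))
    have h1 := hc (x q) (by rw [h.χ_eq, ← hxs, hx])
    rw [h.χ_eq, ← hxs, ← hx] at h1
    refine ⟨c, ?_⟩
    apply Subtype.ext
    change (x q : Ω)⁻¹ * (δ (x q) : E) = algebraMap k Ω c
    rw [h1, mul_comm (algebraMap k Ω c), inv_mul_cancel_left₀]
    rw [hx]
    exact T.x_ne q
  have hδy : ∀ i, ∃ c : k, δ (y i) = algebraMap k E c := by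
    intro i
    obtain ⟨c, hc⟩ := hδ.2 i
    exact ⟨c, Subtype.ext (hc (y i) (hy i))⟩
  have h1 := det_mul_logD_mem hspan hdet B (fun e z hz => (hB _).2 (der_AinfX hd.triv T hd.one
    hd.V_le hd.mem hd.ne hd.span E hd.le_E (d e) hh₀0 hh₀ hc₀ (hdV e) ((hB z).1 hz)))
    hxB hxiB hyB δ hδx hδy ((hB z).2 hz)
  have h2 := (hB _).1 h1
  have h3 : (((Jm d x y).det * δ z : E) : Ω) = μ * (Q * (δ z : E)) := by
    change (((Jm d x y).det : E) : Ω) * (δ z : E) = _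
    rw [hQ]
    ring
  rw [h3] at h2
  have h4 := (AinfX T).mul_mem hμ.inv.mem h2
  rwa [inv_mul_cancel_left₀ hμ.ne] at h4

end ICl

end Pool.Agent.ALL83
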