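import Pool.Agent.Lib.ALL_h83.Jac

/-!
# The ring `A_∞` of toric data (section 1 of the all-defect text)
-/

set_option autoImplicit false

open Submodule Module

namespace Pool.Agent.ALL83

open Pool.Agent.TA
open Pool.Agent.H15JM (RVal)
open Pool.Agent.LU1 (VPos locv)

universe u

section AInf

variable {k Ω : Type u} [Field k] [Field Ω] [Algebra k Ω] {v : RVal Ω} {r : ℕ} {ι : Type}
  [Fintype ι]

theorem v_of_res (T : TD k v r ι) (j : ι) : v (T.b j) = 0 := by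
  by_cases h3 : T.b j - 1 = 0
  · rw [sub_eq_zero.1 h3]; exact v.map_one
  · have h4 := v.add_of_lt one_ne_zero h3 (by rw [v.map_one]; exact T.b_res j h3)
    rw [add_sub_cancel] at h4
    rw [h4.2, v.map_one]

/-- `k[x^l (v (x^l) ≥ 0), b, b⁻¹]`. -/
def Apos (T : TD k v r ι) : Subalgebra k Ω :=
  Algebra.adjoin k ({g | ∃ l : Fin r → ℤ, 0 ≤ v (mx T.x l) ∧ g = mx T.x l} ∪
    (Set.range T.b ∪ Set.range fun j => (T.b j)⁻¹))

/-- `A_∞`. -/
def Ainf (T : TD k v r ι) : Subalgebra k Ω := locv v (Apos T)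

theorem mx_mem_Apos (T : TD k v r ι) {l : Fin r → ℤ} (h : 0 ≤ v (mx T.x l)) :
    mx T.x l ∈ Apos T := Algebra.subset_adjoin (Or.inl ⟨l, h, rfl⟩)

theorem b_mem_Apos (T : TD k v r ι) (j : ι) : T.b j ∈ Apos T :=
  Algebra.subset_adjoin (Or.inr (Or.inl ⟨j, rfl⟩))

theorem binv_mem_Apos (T : TD k v r ι) (j : ι) : (T.b j)⁻¹ ∈ Apos T :=
  Algebra.subset_adjoin (Or.inr (Or.inr ⟨j, rfl⟩))

theorem Apos_le_Ainf (T : TD k v r ι) : Apos T ≤ Ainf T := fun a ha =>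
  ⟨a, ha, 1, (Apos T).one_mem, one_ne_zero, v.map_one, by rw [div_one]⟩

theorem ge_of_mem_Apos (htriv : ∀ c : k, c ≠ 0 → v (algebraMap k Ω c) = 0) (T : TD k v r ι)
    {f : Ω} (hf : f ∈ Apos T) : v.Ge 0 f := by
  unfold Apos at hf
  induction hf using Algebra.adjoin_induction with
  | mem x hx =>
    rcases hx with ⟨l, hl, rfl⟩ | ⟨j, rfl⟩ | ⟨j, rfl⟩
    · exact fun _ => hl
    · exact fun _ => (v_of_res T j).ge
    · intro _
      change 0 ≤ v (T.b j)⁻¹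
      rw [v.map_inv (T.b_ne j), v_of_res T j, neg_zero]
  | algebraMap c =>
    intro h0
    have hc : c ≠ 0 := by
      rintro rfl
      exact h0 (map_zero _)
    rw [htriv c hc]
  | add x y _ _ hx hy => exact RVal.Ge.add hx hy
  | mul x y _ _ hx hy =>
    have h1 := RVal.Ge.mul hx hy
    rwa [add_zero] at h1

theorem ge_of_mem_Ainf (htriv : ∀ c : k, c ≠ 0 → v (algebraMap k Ω c) = 0) (T : TD k v r ι)
    {f : Ω} (hf : f ∈ Ainf T) : v.Ge 0 f := by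
  obtain ⟨a, ha, b, hb, hb0, hvb, rfl⟩ := hf
  intro h0
  have ha0 : a ≠ 0 := fun h => h0 (by rw [h, zero_div])
  rw [v.map_div ha0 hb0, hvb, sub_zero]
  exact ge_of_mem_Apos htriv T ha ha0

/-- Units of `A_∞`. -/
def IsU (T : TD k v r ι) (u : Ω) : Prop := u ∈ Ainf T ∧ u ≠ 0 ∧ v u = 0

/-- Monomials: `x^l` times a unit of `A_∞`. -/
def IsMon (T : TD k v r ι) (f : Ω) : Prop := ∃ l : Fin r → ℤ, ∃ u, IsU T u ∧ f = mx T.x l * u

theorem IsU.mul {T : TD k v r ι} {f g : Ω} (hf : IsU T f) (hg : IsU T g) : IsU T (f * g) :=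
  ⟨(Ainf T).mul_mem hf.1 hg.1, mul_ne_zero hf.2.1 hg.2.1, by
    rw [v.map_mul hf.2.1 hg.2.1, hf.2.2, hg.2.2, add_zero]⟩

theorem IsU.inv {T : TD k v r ι} {f : Ω} (hf : IsU T f) : IsU T f⁻¹ := by
  refine ⟨?_, inv_ne_zero hf.2.1, by rw [v.map_inv hf.2.1, hf.2.2, neg_zero]⟩
  obtain ⟨a, ha, b, hb, hb0, hvb, hab⟩ := hf.1
  have ha0 : a ≠ 0 := fun h => hf.2.1 (by rw [hab, h, zero_div])
  refine ⟨b, hb, a, ha, ha0, ?_, by rw [hab, inv_div]⟩
  have h1 := hf.2.2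
  rw [hab, v.map_div ha0 hb0, hvb, sub_zero] at h1
  exact h1

theorem IsU.one (T : TD k v r ι) : IsU T 1 := ⟨(Ainf T).one_mem, one_ne_zero, v.map_one⟩

theorem IsU.mon {T : TD k v r ι} {f : Ω} (hf : IsU T f) : IsMon T f :=
  ⟨0, f, hf, by rw [mx_zero, one_mul]⟩

theorem IsMon.mx (T : TD k v r ι) (l : Fin r → ℤ) : IsMon T (mx T.x l) :=
  ⟨l, 1, IsU.one T, by rw [mul_one]⟩

theorem IsMon.ne {T : TD k v r ι} {f : Ω} (hf : IsMon T f) : f ≠ 0 := by
  obtain ⟨l, u, hu, rfl⟩ := hf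
  exact mul_ne_zero (mx_ne T.x_ne _) hu.2.1

theorem IsMon.mul {T : TD k v r ι} {f g : Ω} (hf : IsMon T f) (hg : IsMon T g) :
    IsMon T (f * g) := by
  obtain ⟨l, u, hu, rfl⟩ := hf
  obtain ⟨m, w, hw, rfl⟩ := hg
  exact ⟨l + m, u * w, hu.mul hw, by rw [mx_add T.x_ne]; ring⟩

theorem IsMon.inv {T : TD k v r ι} {f : Ω} (hf : IsMon T f) : IsMon T f⁻¹ := by
  obtain ⟨l, u, hu, rfl⟩ := hf
  exact ⟨-l, u⁻¹, hu.inv, by rw [mx_neg_zpow T.x_ne, mul_inv]⟩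

theorem IsMon.div {T : TD k v r ι} {f g : Ω} (hf : IsMon T f) (hg : IsMon T g) :
    IsMon T (f / g) := by
  rw [div_eq_mul_inv]; exact hf.mul hg.inv

theorem IsMon.one (T : TD k v r ι) : IsMon T 1 := (IsU.one T).mon

theorem IsMon.pow {T : TD k v r ι} {f : Ω} (hf : IsMon T f) (m : ℕ) : IsMon T (f ^ m) := by
  induction m with
  | zero => rw [pow_zero]; exact IsMon.one T
  | succ m ih => rw [pow_succ]; exact ih.mul hf

/-- `A_∞[1/χ]`. -/
def AinfX (T : TD k v r ι) : Subalgebra k Ω where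
  carrier := {f | ∃ l : Fin r → ℤ, 0 ≤ v (mx T.x l) ∧ mx T.x l * f ∈ Ainf T}
  mul_mem' := by
    rintro f g ⟨l, hl, hf⟩ ⟨m, hm, hg⟩
    refine ⟨l + m, ?_, ?_⟩
    · rw [mx_add T.x_ne, v.map_mul (mx_ne T.x_ne _) (mx_ne T.x_ne _)]
      exact add_nonneg hl hm
    · have h1 := (Ainf T).mul_mem hf hg
      have h2 : mx T.x (l + m) * (f * g) = mx T.x l * f * (mx T.x m * g) := by
        rw [mx_add T.x_ne]; ring
      rwa [h2]
  add_mem' := by
    rintro f g ⟨l, hl, hf⟩ ⟨m, hm, hg⟩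
    refine ⟨l + m, ?_, ?_⟩
    · rw [mx_add T.x_ne, v.map_mul (mx_ne T.x_ne _) (mx_ne T.x_ne _)]
      exact add_nonneg hl hm
    · have h1 := (Ainf T).mul_mem (Apos_le_Ainf T (mx_mem_Apos T hm)) hf
      have h2 := (Ainf T).mul_mem (Apos_le_Ainf T (mx_mem_Apos T hl)) hg
      have h3 : mx T.x (l + m) * (f + g) = mx T.x m * (mx T.x l * f) +
          mx T.x l * (mx T.x m * g) := by
        rw [mx_add T.x_ne]; ring
      rw [h3]
      exact (Ainf T).add_mem h1 h2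
  algebraMap_mem' := fun c => ⟨0, by rw [mx_zero, v.map_one], by
    rw [mx_zero, one_mul]; exact (Ainf T).algebraMap_mem c⟩

theorem mem_AinfX_of (T : TD k v r ι) {f : Ω} (l : Fin r → ℤ) (h : mx T.x l * f ∈ Ainf T) :
    f ∈ AinfX T := by
  by_cases hl : 0 ≤ v (mx T.x l)
  · exact ⟨l, hl, h⟩
  · have h1 : 0 ≤ v (mx T.x (-l)) := by
      rw [mx_neg_zpow T.x_ne, v.map_inv (mx_ne T.x_ne _)]
      linarith
    refine ⟨0, by rw [mx_zero, v.map_one], ?_⟩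
    have h2 := (Ainf T).mul_mem (Apos_le_Ainf T (mx_mem_Apos T h1)) h
    have h3 : mx T.x (-l) * (mx T.x l * f) = mx T.x 0 * f := by
      rw [← mul_assoc, ← mx_add T.x_ne, neg_add_cancel]
    rwa [h3] at h2

theorem Ainf_le_AinfX (T : TD k v r ι) : Ainf T ≤ AinfX T := fun f hf =>
  mem_AinfX_of T 0 (by rw [mx_zero, one_mul]; exact hf)

theorem IsMon.mem {T : TD k v r ι} {f : Ω} (hf : IsMon T f) : f ∈ AinfX T := by
  obtain ⟨l, u, hu, rfl⟩ := hf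
  refine mem_AinfX_of T (-l) ?_
  rw [← mul_assoc, ← mx_add T.x_ne, neg_add_cancel, mx_zero, one_mul]
  exact hu.1

/-- The term of smallest value dominates. -/
theorem mon_of_mem_span (htriv : ∀ c : k, c ≠ 0 → v (algebraMap k Ω c) = 0) (T : TD k v r ι)
    {g : Ω} (hg : g ∈ span k (Set.range fun j => T.b j * mx T.x (T.a j))) (hg0 : g ≠ 0) :
    IsMon T g := by
  classical
  rw [mem_span_range_iff_exists_fun] at hg
  obtain ⟨c, hc⟩ := hg
  obtain ⟨s, hs⟩ : ∃ s : Finset ι, s = Finset.univ.filter fun j => c j ≠ 0 := ⟨_, rfl⟩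
  have hmem : ∀ j, j ∈ s ↔ c j ≠ 0 := fun j => by rw [hs]; simp
  have hne : s.Nonempty := by
    by_contra h
    rw [Finset.not_nonempty_iff_eq_empty] at h
    apply hg0
    rw [← hc]
    refine Finset.sum_eq_zero fun j _ => ?_
    have h1 : ¬ c j ≠ 0 := by rw [← hmem, h]; simp
    rw [not_not.1 h1, zero_smul]
  obtain ⟨j₀, hj₀, hmin⟩ := Finset.exists_min_image s (fun j => v (mx T.x (T.a j))) hne
  have hc0 := (hmem j₀).1 hj₀
  have hsum : g = mx T.x (T.a j₀) * (algebraMap k Ω (c j₀) * T.b j₀ +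
      ∑ j ∈ s.erase j₀, algebraMap k Ω (c j) * (T.b j * mx T.x (T.a j - T.a j₀))) := by
    rw [← hc]
    have h1 : ∑ j, c j • (T.b j * mx T.x (T.a j)) = ∑ j ∈ s, c j • (T.b j * mx T.x (T.a j)) := by
      symm
      refine Finset.sum_subset (Finset.subset_univ _) fun j _ hj => ?_
      rw [hmem, not_not] at hj
      rw [hj, zero_smul]
    rw [h1, ← Finset.add_sum_erase _ _ hj₀, mul_add, Finset.mul_sum]
    congr 1
    · rw [Algebra.smul_def]; ring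
    · refine Finset.sum_congr rfl fun j _ => ?_
      have h2 : mx T.x (T.a j) = mx T.x (T.a j₀) * mx T.x (T.a j - T.a j₀) := by
        rw [← mx_add T.x_ne, add_sub_cancel]
      rw [Algebra.smul_def, h2]
      ring
  have hpos : ∀ j ∈ s.erase j₀, 0 < v (mx T.x (T.a j - T.a j₀)) := by
    intro j hj
    obtain ⟨hne', hj'⟩ := Finset.mem_erase.1 hj
    have h1 := hmin j hj'
    rw [sub_eq_add_neg, mx_add T.x_ne, mx_neg_zpow T.x_ne,
      v.map_mul (mx_ne T.x_ne _) (inv_ne_zero (mx_ne T.x_ne _)), v.map_inv (mx_ne T.x_ne _)]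
    rcases lt_or_eq_of_le h1 with h2 | h2
    · linarith
    · exfalso
      apply hne'
      apply T.a_inj
      refine int_eq_of_ind T.x_ind ?_
      rw [← v_mx T.x_ne, ← v_mx T.x_ne, h2]
  have hmemA : ∀ j ∈ s.erase j₀, algebraMap k Ω (c j) * (T.b j * mx T.x (T.a j - T.a j₀)) ∈
      Apos T := fun j hj => (Apos T).mul_mem ((Apos T).algebraMap_mem _)
    ((Apos T).mul_mem (b_mem_Apos T j) (mx_mem_Apos T (hpos j hj).le))
  have hvp : VPos v (∑ j ∈ s.erase j₀,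
      algebraMap k Ω (c j) * (T.b j * mx T.x (T.a j - T.a j₀))) := by
    have h1 : ∀ s' ⊆ s.erase j₀, VPos v (∑ j ∈ s',
        algebraMap k Ω (c j) * (T.b j * mx T.x (T.a j - T.a j₀))) := by
      intro s'
      induction s' using Finset.induction_on with
      | empty => intro _; rw [Finset.sum_empty]; exact fun h => absurd rfl h
      | insert j s' hj ih =>
        intro hsub
        rw [Finset.sum_insert hj]
        have hj' : j ∈ s.erase j₀ := hsub (Finset.mem_insert_self _ _)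
        refine VPos.add ?_ (ih fun x hx => hsub (Finset.mem_insert_of_mem hx))
        intro _
        have hcj := (hmem j).1 (Finset.mem_of_mem_erase hj')
        have hcΩ : algebraMap k Ω (c j) ≠ 0 := (map_ne_zero _).2 hcj
        rw [v.map_mul hcΩ (mul_ne_zero (T.b_ne j) (mx_ne T.x_ne _)), htriv _ hcj, zero_add,
          v.map_mul (T.b_ne j) (mx_ne T.x_ne _), v_of_res, zero_add]
        exact hpos j hj'
    exact h1 _ (Finset.Subset.refl _)
  have hcΩ : algebraMap k Ω (c j₀) ≠ 0 := (map_ne_zero _).2 hc0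
  have h2 := LU1.val_add_vpos (v := v) (mul_ne_zero hcΩ (T.b_ne j₀)) (by
    rw [v.map_mul hcΩ (T.b_ne j₀), htriv _ hc0, v_of_res, add_zero]) hvp
  refine ⟨T.a j₀, _, ⟨Apos_le_Ainf T ?_, h2.1, h2.2⟩, hsum⟩
  exact (Apos T).add_mem ((Apos T).mul_mem ((Apos T).algebraMap_mem _) (b_mem_Apos T j₀))
    (sum_mem hmemA)

/-- All non-zero elements of `V ^ m` are monomials. -/
theorem mon_of_mem_pow (htriv : ∀ c : k, c ≠ 0 → v (algebraMap k Ω c) = 0) (T : TD k v r ι)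
    {V : Submodule k Ω} (h1 : (1 : Ω) ∈ V) {m : ℕ} {f₀ : Ω} (hf₀0 : f₀ ≠ 0)
    (hspan : span k (Set.range fun j => T.b j * mx T.x (T.a j)) = span k {f₀⁻¹} * V ^ m)
    {g : Ω} (hg : g ∈ V ^ m) (hg0 : g ≠ 0) : IsMon T g := by
  have hP : ∀ y ∈ V ^ m, f₀⁻¹ * y ∈
      span k (Set.range fun j => T.b j * mx T.x (T.a j)) := fun y hy => by
    rw [hspan]; exact mul_mem_mul (mem_span_singleton_self _) hy
  have h1m : (1 : Ω) ∈ V ^ m := pow_le_pow_of_one h1 (Nat.zero_le m) (by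
    rw [pow_zero]; exact Submodule.one_le.1 le_rfl)
  have h2 : IsMon T (f₀⁻¹ * 1) := mon_of_mem_span htriv T (hP 1 h1m) (by
    rw [mul_one]; exact inv_ne_zero hf₀0)
  have h3 : IsMon T (f₀⁻¹ * g) := mon_of_mem_span htriv T (hP g hg)
    (mul_ne_zero (inv_ne_zero hf₀0) hg0)
  have h4 : g = (f₀⁻¹ * g) / (f₀⁻¹ * 1) := by
    have h5 := hf₀0
    field_simp
  rw [h4]
  exact h3.div h2

/-- `A_∞[1/χ]` consists of the quotients of elements of `k[V]` with monomial denominators. -/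
theorem mem_AinfX_iff (htriv : ∀ c : k, c ≠ 0 → v (algebraMap k Ω c) = 0) (T : TD k v r ι)
    {V : Submodule k Ω} (h1 : (1 : Ω) ∈ V) {m : ℕ} (hV : V ≤ V ^ m) {f₀ : Ω} (hf₀ : f₀ ∈ V ^ m)
    (hf₀0 : f₀ ≠ 0)
    (hspan : span k (Set.range fun j => T.b j * mx T.x (T.a j)) = span k {f₀⁻¹} * V ^ m)
    {f : Ω} : f ∈ AinfX T ↔ ∃ a ∈ Algebra.adjoin k (V : Set Ω),
      ∃ b ∈ Algebra.adjoin k (V : Set Ω), IsMon T b ∧ f = a / b := by
  obtain ⟨B, hB⟩ : ∃ B, B = Algebra.adjoin k (V : Set Ω) := ⟨_, rfl⟩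
  have hVB : ∀ y ∈ V, y ∈ B := fun y hy => by rw [hB]; exact Algebra.subset_adjoin hy
  have hVmB : ∀ y ∈ V ^ m, y ∈ B := by
    intro y hy
    have h2 : ∀ e : ℕ, V ^ e ≤ B.toSubmodule := by
      intro e
      induction e with
      | zero => rw [pow_zero]; exact Submodule.one_le.2 B.one_mem
      | succ e ih =>
        rw [pow_succ, Submodule.mul_le]
        exact fun a ha b hb => B.mul_mem (ih ha) (hVB b hb)
    exact h2 m hy
  have hmon : ∀ y ∈ V ^ m, y ≠ 0 → IsMon T y := fun y hy hy0 =>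
    mon_of_mem_pow htriv T h1 hf₀0 hspan hy hy0
  have hBX : B ≤ AinfX T := by
    rw [hB, Algebra.adjoin_le_iff]
    intro y hy
    by_cases h0 : y = 0
    · rw [h0]; exact (AinfX T).zero_mem
    · exact (hmon y (hV hy) h0).mem
  rw [← hB]
  constructor
  · -- the algebra of fractions
    obtain ⟨Fr, hFr⟩ : ∃ Fr : Subalgebra k Ω, ∀ f, f ∈ Fr ↔
        ∃ a ∈ B, ∃ b ∈ B, IsMon T b ∧ f = a / b := by
      refine ⟨{ carrier := {f | ∃ a ∈ B, ∃ b ∈ B, IsMon T b ∧ f = a / b}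
                mul_mem' := ?_
                add_mem' := ?_
                algebraMap_mem' := ?_ }, fun f => Iff.rfl⟩
      · rintro f g ⟨a, ha, b, hb, hbm, rfl⟩ ⟨c, hc, d, hd, hdm, rfl⟩
        exact ⟨a * c, B.mul_mem ha hc, b * d, B.mul_mem hb hd, hbm.mul hdm, by
          rw [div_mul_div_comm]⟩
      · rintro f g ⟨a, ha, b, hb, hbm, rfl⟩ ⟨c, hc, d, hd, hdm, rfl⟩
        exact ⟨a * d + b * c, B.add_mem (B.mul_mem ha hd) (B.mul_mem hb hc), b * d,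
          B.mul_mem hb hd, hbm.mul hdm, by rw [div_add_div _ _ hbm.ne hdm.ne]⟩
      · intro c
        exact ⟨algebraMap k Ω c, B.algebraMap_mem c, 1, B.one_mem, IsMon.one T, by rw [div_one]⟩
    have hmonFr : ∀ g ∈ B, IsMon T g → g⁻¹ ∈ Fr := fun g hg hgm =>
      (hFr _).2 ⟨1, B.one_mem, g, hg, hgm, by rw [one_div]⟩
    have hBFr : B ≤ Fr := fun g hg => (hFr g).2 ⟨g, hg, 1, B.one_mem, IsMon.one T, by rw [div_one]⟩
    -- the elements `f j`
    have hfj : ∀ j, ∃ g ∈ V ^ m, T.b j * mx T.x (T.a j) = f₀⁻¹ * g := by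
      intro j
      have h2 : T.b j * mx T.x (T.a j) ∈ span k {f₀⁻¹} * V ^ m := by
        rw [← hspan]; exact subset_span ⟨j, rfl⟩
      refine ⟨f₀ * (T.b j * mx T.x (T.a j)), ?_, by rw [inv_mul_cancel_left₀ hf₀0]⟩
      have h3 := mul_mem_mul (mem_span_singleton_self (R := k) f₀) h2
      rw [← mul_assoc, span_mul_span, Set.singleton_mul_singleton, mul_inv_cancel₀ hf₀0,
        ← Submodule.one_eq_span, one_mul] at h3
      exact h3
    have hf0 : ∀ j, T.b j * mx T.x (T.a j) ≠ 0 := fun j =>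
      mul_ne_zero (T.b_ne j) (mx_ne T.x_ne _)
    have hfFr : ∀ j, T.b j * mx T.x (T.a j) ∈ Fr ∧ (T.b j * mx T.x (T.a j))⁻¹ ∈ Fr := by
      intro j
      obtain ⟨g, hg, hgf⟩ := hfj j
      have hg0 : g ≠ 0 := fun h => hf0 j (by rw [hgf, h, mul_zero])
      rw [hgf]
      refine ⟨Fr.mul_mem (hmonFr _ (hVmB _ hf₀) (hmon _ hf₀ hf₀0)) (hBFr (hVmB g hg)), ?_⟩
      rw [mul_inv, inv_inv]
      exact Fr.mul_mem (hBFr (hVmB _ hf₀)) (hmonFr g (hVmB g hg) (hmon g hg hg0))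
    have hfz : ∀ j (e : ℤ), (T.b j * mx T.x (T.a j)) ^ e ∈ Fr := by
      intro j e
      cases e with
      | ofNat e => rw [Int.ofNat_eq_natCast, zpow_natCast]; exact Fr.pow_mem (hfFr j).1 e
      | negSucc e =>
        rw [zpow_negSucc, ← inv_pow]
        exact Fr.pow_mem (hfFr j).2 _
    have hxFr : ∀ i (e : ℤ), T.x i ^ e ∈ Fr := by
      intro i e
      obtain ⟨α, hα, hαb⟩ := T.lat i
      have h2 : T.x i = ∏ j, (T.b j * mx T.x (T.a j)) ^ α j := by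
        rw [Finset.prod_congr rfl fun j _ => mul_zpow (T.b j) (mx T.x (T.a j)) (α j),
          Finset.prod_mul_distrib, hαb, one_mul, ← mx_sum_smul T.x_ne, hα, mx_single, zpow_one]
      rw [h2, ← Finset.prod_zpow]
      refine Fr.prod_mem fun j _ => ?_
      rw [← zpow_mul]
      exact hfz j _
    have hmxFr : ∀ l, mx T.x l ∈ Fr := fun l => Fr.prod_mem fun i _ => hxFr i _
    have hbFr : ∀ j, T.b j ∈ Fr ∧ (T.b j)⁻¹ ∈ Fr := by
      intro j
      have h2 : T.b j = (T.b j * mx T.x (T.a j)) * mx T.x (-T.a j) := by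
        rw [mx_neg_zpow T.x_ne, mul_inv_cancel_right₀ (mx_ne T.x_ne _)]
      have h3 : (T.b j)⁻¹ = (T.b j * mx T.x (T.a j))⁻¹ * mx T.x (T.a j) := by
        rw [mul_inv, inv_mul_cancel_right₀ (mx_ne T.x_ne _)]
      rw [h3]
      refine ⟨?_, Fr.mul_mem (hfFr j).2 (hmxFr _)⟩
      rw [h2]
      exact Fr.mul_mem (hfFr j).1 (hmxFr _)
    have hApos : Apos T ≤ Fr := by
      unfold Apos
      rw [Algebra.adjoin_le_iff]
      rintro y (⟨l, -, rfl⟩ | ⟨j, rfl⟩ | ⟨j, rfl⟩)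
      · exact hmxFr l
      · exact (hbFr j).1
      · exact (hbFr j).2
    have hAinf : Ainf T ≤ Fr := by
      rintro y ⟨a, ha, s, hs, hs0, hvs, rfl⟩
      rw [div_eq_mul_inv]
      refine Fr.mul_mem (hApos ha) ?_
      obtain ⟨c, hc, d, hd, hdm, hcd⟩ := (hFr s).1 (hApos hs)
      have h2 : IsMon T s := (show IsU T s from ⟨Apos_le_Ainf T hs, hs0, hvs⟩).mon
      have h3 : IsMon T c := by
        have h4 : c = s * d := by rw [hcd, div_mul_cancel₀ _ hdm.ne]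
        rw [h4]
        exact h2.mul hdm
      rw [hcd, inv_div]
      exact (hFr _).2 ⟨d, hd, c, hc, h3, rfl⟩
    rintro ⟨l, -, hl⟩
    have h2 := Fr.mul_mem (hmxFr (-l)) (hAinf hl)
    rw [mx_neg_zpow T.x_ne, inv_mul_cancel_left₀ (mx_ne T.x_ne _)] at h2
    exact (hFr f).1 h2
  · rintro ⟨a, ha, b, hb, hbm, rfl⟩
    rw [div_eq_mul_inv]
    exact (AinfX T).mul_mem (hBX ha) hbm.inv.mem

/-- `k[V] ≤ A_∞[1/χ]`. -/
theorem adjoin_le_AinfX (htriv : ∀ c : k, c ≠ 0 → v (algebraMap k Ω c) = 0) (T : TD k v r ι)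
    {V : Submodule k Ω} (h1 : (1 : Ω) ∈ V) {m : ℕ} (hV : V ≤ V ^ m) {f₀ : Ω} (hf₀ : f₀ ∈ V ^ m)
    (hf₀0 : f₀ ≠ 0)
    (hspan : span k (Set.range fun j => T.b j * mx T.x (T.a j)) = span k {f₀⁻¹} * V ^ m) :
    Algebra.adjoin k (V : Set Ω) ≤ AinfX T := fun a ha =>
  (mem_AinfX_iff htriv T h1 hV hf₀ hf₀0 hspan).2
    ⟨a, ha, 1, Subalgebra.one_mem _, IsMon.one T, by rw [div_one]⟩

/-- `A_∞[1/χ]` is integrally closed if `k[V]` is. -/
theorem isIntegrallyClosed_AinfX (htriv : ∀ c : k, c ≠ 0 → v (algebraMap k Ω c) = 0)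
    (T : TD k v r ι) {V : Submodule k Ω} (h1 : (1 : Ω) ∈ V) {m : ℕ} (hV : V ≤ V ^ m) {f₀ : Ω}
    (hf₀ : f₀ ∈ V ^ m) (hf₀0 : f₀ ≠ 0)
    (hspan : span k (Set.range fun j => T.b j * mx T.x (T.a j)) = span k {f₀⁻¹} * V ^ m)
    (hic : IsIntegrallyClosed (Algebra.adjoin k (V : Set Ω))) :
    IsIntegrallyClosed (AinfX T) := by
  have hle := adjoin_le_AinfX htriv T h1 hV hf₀ hf₀0 hspan
  let _ : Algebra (Algebra.adjoin k (V : Set Ω)) (AinfX T) :=
    (Subalgebra.inclusion hle).toRingHom.toAlgebra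
  obtain ⟨M, hM⟩ : ∃ M : Submonoid (Algebra.adjoin k (V : Set Ω)),
      ∀ b, b ∈ M ↔ IsMon T (b : Ω) := by
    refine ⟨{ carrier := {b | IsMon T (b : Ω)}
              mul_mem' := fun {a b} ha hb => ?_
              one_mem' := IsMon.one T }, fun b => Iff.rfl⟩
    exact IsMon.mul ha hb
  have hcoe : ∀ b : Algebra.adjoin k (V : Set Ω),
      ((algebraMap (Algebra.adjoin k (V : Set Ω)) (AinfX T) b : AinfX T) : Ω) = b := fun _ => rfl
  have hloc : IsLocalization M (AinfX T) := by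
    refine ⟨⟨?_, ?_, ?_⟩⟩
    · rintro ⟨b, hb⟩
      have hbm := (hM b).1 hb
      refine IsUnit.of_mul_eq_one (⟨(b : Ω)⁻¹, hbm.inv.mem⟩ : AinfX T) ?_
      apply Subtype.ext
      change (b : Ω) * (b : Ω)⁻¹ = 1
      exact mul_inv_cancel₀ hbm.ne
    · intro z
      obtain ⟨a, ha, b, hb, hbm, hab⟩ :=
        (mem_AinfX_iff htriv T h1 hV hf₀ hf₀0 hspan).1 z.2
      refine ⟨(⟨a, ha⟩, ⟨⟨b, hb⟩, (hM _).2 hbm⟩), ?_⟩
      apply Subtype.ext
      change (z : Ω) * b = a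
      rw [hab, div_mul_cancel₀ _ hbm.ne]
    · intro x y hxy
      have h2 : (x : Ω) = y := by
        have h3 := congrArg (fun z : AinfX T => (z : Ω)) hxy
        exact h3
      exact ⟨1, by rw [Subtype.ext h2]⟩
  refine isIntegrallyClosed_of_isLocalization (AinfX T) M ?_
  intro b hb
  exact mem_nonZeroDivisors_of_ne_zero fun h => ((hM b).1 hb).ne (by rw [h]; rfl)

/-- `A_∞[1/χ]` is stable under the derivations. -/
theorem der_AinfX (htriv : ∀ c : k, c ≠ 0 → v (algebraMap k Ω c) = 0)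
    (T : TD k v r ι) {V : Submodule k Ω} (h1 : (1 : Ω) ∈ V) {m : ℕ} (hV : V ≤ V ^ m) {f₀ : Ω}
    (hf₀ : f₀ ∈ V ^ m) (hf₀0 : f₀ ≠ 0)
    (hspan : span k (Set.range fun j => T.b j * mx T.x (T.a j)) = span k {f₀⁻¹} * V ^ m)
    (E : IntermediateField k Ω) (hVE : ∀ y ∈ V, y ∈ E) (d : Derivation k E E) {h₀ : Ω} {c₀ : ℕ}
    (hh₀0 : h₀ ≠ 0) (hh₀ : h₀ ∈ V ^ c₀) (hc₀ : c₀ ≤ m)
    (hd : ∀ z : E, (z : Ω) ∈ V → h₀ * (d z : E) ∈ V ^ c₀)
    {z : E} (hz : (z : Ω) ∈ AinfX T) : ((d z : E) : Ω) ∈ AinfX T := by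
  have hle := adjoin_le_AinfX htriv T h1 hV hf₀ hf₀0 hspan
  have hmon : ∀ y ∈ V ^ m, y ≠ 0 → IsMon T y := fun y hy hy0 =>
    mon_of_mem_pow htriv T h1 hf₀0 hspan hy hy0
  have hcm : V ^ c₀ ≤ V ^ m := pow_le_pow_of_one h1 hc₀
  have hBE : Algebra.adjoin k (V : Set Ω) ≤ E.toSubalgebra := by
    rw [Algebra.adjoin_le_iff]
    exact fun y hy => hVE y hy
  -- on `V`
  have hdV : ∀ z : E, (z : Ω) ∈ V → ((d z : E) : Ω) ∈ AinfX T := by
    intro z hz
    have h2 := hcm (hd z hz)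
    by_cases h0 : ((d z : E) : Ω) = 0
    · rw [h0]; exact (AinfX T).zero_mem
    · have h3 := (hmon _ h2 (mul_ne_zero hh₀0 h0)).mem
      have h4 := (AinfX T).mul_mem (hmon _ (hcm hh₀) hh₀0).inv.mem h3
      rwa [inv_mul_cancel_left₀ hh₀0] at h4
  -- on `k[V]`
  have hdB : ∀ y (hy : y ∈ Algebra.adjoin k (V : Set Ω)) (hyE : y ∈ E),
      ((d ⟨y, hyE⟩ : E) : Ω) ∈ AinfX T := by
    intro y hy
    induction hy using Algebra.adjoin_induction with
    | mem y hy => exact fun hyE => hdV ⟨y, hyE⟩ hy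
    | algebraMap c =>
      intro hyE
      have h2 : d (⟨algebraMap k Ω c, hyE⟩ : E) = 0 := d.map_algebraMap c
      rw [h2]
      exact (AinfX T).zero_mem
    | add x y hx hy ihx ihy =>
      intro hyE
      have h2 : (⟨x + y, hyE⟩ : E) = ⟨x, hBE hx⟩ + ⟨y, hBE hy⟩ := rfl
      rw [h2, map_add]
      exact (AinfX T).add_mem (ihx _) (ihy _)
    | mul x y hx hy ihx ihy =>
      intro hyE
      have h2 : (⟨x * y, hyE⟩ : E) = ⟨x, hBE hx⟩ * ⟨y, hBE hy⟩ := rfl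
      rw [h2, Derivation.leibniz]
      exact (AinfX T).add_mem ((AinfX T).mul_mem (hle hx) (ihy _))
        ((AinfX T).mul_mem (hle hy) (ihx _))
  obtain ⟨a, ha, b, hb, hbm, hab⟩ := (mem_AinfX_iff htriv T h1 hV hf₀ hf₀0 hspan).1 hz
  obtain ⟨aE, haE⟩ : ∃ aE : E, (aE : Ω) = a := ⟨⟨a, hBE ha⟩, rfl⟩
  obtain ⟨bE, hbE⟩ : ∃ bE : E, (bE : Ω) = b := ⟨⟨b, hBE hb⟩, rfl⟩
  have hb0 : bE ≠ 0 := fun h => hbm.ne (by rw [← hbE, h]; rfl)
  have h2 : aE = z * bE := by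
    apply Subtype.ext
    change (aE : Ω) = (z : Ω) * (bE : Ω)
    rw [haE, hbE, hab, div_mul_cancel₀ _ hbm.ne]
  have h3 : ((d aE : E) : Ω) ∈ AinfX T := by
    have h4 := hdB a ha (hBE ha)
    have h5 : (⟨a, hBE ha⟩ : E) = aE := Subtype.ext haE.symm
    rwa [h5] at h4
  have h3' : ((d bE : E) : Ω) ∈ AinfX T := by
    have h4 := hdB b hb (hBE hb)
    have h5 : (⟨b, hBE hb⟩ : E) = bE := Subtype.ext hbE.symm
    rwa [h5] at h4
  have h4 : d z = bE⁻¹ * (d aE - z * d bE) := by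
    rw [h2, Derivation.leibniz]
    simp only [smul_eq_mul]
    have h5 : z * d bE + bE * d z - z * d bE = bE * d z := by ring
    rw [h5, inv_mul_cancel_left₀ hb0]
  rw [h4]
  change (bE : Ω)⁻¹ * ((d aE : Ω) - (z : Ω) * (d bE : Ω)) ∈ AinfX T
  rw [hbE]
  exact (AinfX T).mul_mem hbm.inv.mem ((AinfX T).sub_mem h3 ((AinfX T).mul_mem hz h3'))

end AInf

end Pool.Agent.ALL83
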