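import Pool.Agent.Lib.ALL_h83.Jac
import Pool.Agent.Lib.ALL_h85.Jac

/-!
# The logarithmic Jacobian of the projections of toric data lies in a small power of `P`

`jac_TD`: (1.2) + (2.1) of the all-defect text.
-/

set_option autoImplicit false

open Submodule Module

namespace Pool.Agent.ALL83

open Pool.Agent.TA
open Pool.Agent.H15JM (RVal)

universe u

section JacTD

variable {k Ω : Type u} [Field k] [Field Ω] [Algebra k Ω] {r D : ℕ} {ι : Type} [Fintype ι]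
  [DecidableEq ι]

/-- The coefficients of `Q` lie in a small power of `P`. -/
theorem Qc_mem_field (E : IntermediateField k Ω) (d : Fin r ⊕ Fin D → Derivation k E E)
    {f : ι → E} (α : Fin r → ι → ℤ) {S : Finset ι} (hScard : S.card ≤ 2 * r) {P : Submodule k Ω}
    (h1 : (1 : Ω) ∈ P) (hf : ∀ j, (f j : Ω) ∈ P) {g : Ω} {e : ℕ}
    (hg : ∀ j l, g * (qq d f j l : E) ∈ P ^ e) (l : Fin D → ι) :
    g * (Qc d f α S l : E) ∈ P ^ (e + r) := by
  have h0 : ((Qc d f α S l : E) : Ω) = ∑ j : Fin r → ι with (∀ q, j q ∈ S) ∧ Function.Injective j,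
      (∏ q, (α q (j q) : Ω)) * (∏ s ∈ S \ Finset.univ.image j, (f s : Ω)) * (qq d f j l : E) := by
    unfold Qc
    rw [← IntermediateField.coe_val, map_sum]
    refine Finset.sum_congr rfl fun j _ => ?_
    rw [map_mul, map_mul, map_prod, map_prod]
    simp only [map_intCast, IntermediateField.coe_val]
  rw [h0, Finset.mul_sum]
  refine sum_mem fun j hj => ?_
  obtain ⟨hjS, hjinj⟩ := (Finset.mem_filter.1 hj).2
  have h2 : (S \ Finset.univ.image j).card ≤ r := by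
    rw [Finset.card_sdiff_of_subset, Finset.card_image_of_injective _ hjinj, Finset.card_univ,
      Fintype.card_fin]
    · omega
    · intro s hs
      obtain ⟨q, -, rfl⟩ := Finset.mem_image.1 hs
      exact hjS q
  have h3 := pow_le_pow_of_one h1 h2 (prod_mem_pow hf (S \ Finset.univ.image j))
  have h4 : (∏ q, (α q (j q) : Ω)) = algebraMap k Ω (∏ q, (α q (j q) : k)) := by
    rw [map_prod]
    exact Finset.prod_congr rfl fun q _ => by rw [map_intCast]
  have h5 : g * ((∏ q, (α q (j q) : Ω)) * (∏ s ∈ S \ Finset.univ.image j, (f s : Ω)) *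
      (qq d f j l : E)) =
      (∏ q, (α q (j q) : k)) • ((g * (qq d f j l : E)) *
        ∏ s ∈ S \ Finset.univ.image j, (f s : Ω)) := by
    rw [h4, Algebra.smul_def]
    ring
  rw [h5, pow_add]
  exact smul_mem _ _ (mul_mem_mul (hg j l) h3)

omit [Fintype ι] [DecidableEq ι] in
/-- (1.2) with the index type `Fin r ⊕ Fin D`. -/
theorem qq_mem (E : IntermediateField k Ω) {V : Submodule k Ω} (hVE : ∀ v ∈ V, v ∈ E)
    (h1 : (1 : Ω) ∈ V) (d : Fin r ⊕ Fin D → Derivation k E E) {h₀ : Ω} {c₀ : ℕ}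
    (hD : ∀ b, ∀ v : E, (v : Ω) ∈ V → h₀ * (d b v : E) ∈ V ^ c₀) {m : ℕ} {g₀ : E}
    (hg₀ : (g₀ : Ω) ∈ V ^ m) (f : ι → E) (hf : ∀ a, (g₀ : Ω) * f a ∈ V ^ m)
    (j : Fin r → ι) (l : Fin D → ι) :
    (g₀ : Ω) ^ (r + D + 1) * h₀ ^ (r + D) * (qq d f j l : E) ∈
      V ^ ((r + D + 1) * m + (r + D) * c₀) := by
  have h2 := ALLh85.jac_mem_field E hVE h1 (fun b => d (finSumFinEquiv.symm b))
    (fun b => hD _) hg₀ (fun b => f (Sum.elim j l (finSumFinEquiv.symm b))) (fun a => hf _)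
  have h3 : (Matrix.of fun a b => (d (finSumFinEquiv.symm b))
      (f (Sum.elim j l (finSumFinEquiv.symm a)))).det = qq d f j l := by
    unfold qq
    rw [← Matrix.det_submatrix_equiv_self (finSumFinEquiv (m := r) (n := D)).symm
      (Matrix.of (Sum.elim (fun q b => d b (f (j q))) (fun i b => d b (f (l i)))))]
    congr 1
    ext a b
    rw [Matrix.submatrix_apply, Matrix.of_apply, Matrix.of_apply]
    rcases (finSumFinEquiv.symm a) with q | i <;> rfl
  rwa [h3] at h2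

variable {v : RVal Ω}

/-- **(1.2) + (2.1)**. The logarithmic Jacobian of all the projections of toric data. -/
theorem jac_TD {p : ℕ} [Fact p.Prime] [CharP k p] (E : IntermediateField k Ω) {V : Submodule k Ω}
    (hVE : ∀ v ∈ V, v ∈ E) (h1 : (1 : Ω) ∈ V) (d : Fin r ⊕ Fin D → Derivation k E E) {h₀ : Ω}
    (hh₀ : h₀ ≠ 0) (hh₀E : h₀ ∈ E) {c₀ : ℕ} (hD : ∀ b, ∀ v : E, (v : Ω) ∈ V → h₀ * (d b v : E) ∈ V ^ c₀)
    {m : ℕ} (hm : (r + D) * c₀ ≤ m) (T : TD k v r ι) {f₀ : Ω} (hf₀ : f₀ ∈ V ^ m)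
    (hf₀0 : f₀ ≠ 0) (hf₀E : f₀ ∈ E)
    (hspan : span k (Set.range fun j => T.b j * mx T.x (T.a j)) = span k {f₀⁻¹} * V ^ m)
    (hxE : ∀ i, T.x i ∈ E) (hbE : ∀ j, T.b j ∈ E) {α : Fin r → ι → ℤ} {S : Finset ι}
    (hScard : S.card ≤ 2 * r) (hSdvd : ∀ i, ∀ j, j ∉ S → (p : ℤ) ∣ α i j)
    (hTx : ∀ i, T.x i = ∏ j, (T.b j * mx T.x (T.a j)) ^ α i j) :
    ∃ Qco : (Fin D → ι) → Ω, (∀ l, Qco l ∈ (span k {f₀⁻¹} * V ^ m) ^ (r + D + 2 + r)) ∧
      (∀ l, Qco l ∈ E) ∧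
      ∀ (c : Fin D → ι → k) (y : Fin D → E),
        (∀ i, (y i : Ω) = ∑ l, c i l • (T.b l - 1)) →
        (((Jm d (fun i => ⟨T.x i, hxE i⟩) y).det : E) : Ω) =
          (∏ s ∈ S, (T.b s * mx T.x (T.a s)))⁻¹ * f₀ * (h₀ ^ (r + D))⁻¹ *
          ∑ l : Fin D → ι, (∏ i, algebraMap k Ω (c i (l i))) * Qco l *
            mx T.x (-∑ i, T.a (l i)) := by
  classical
  obtain ⟨P, hP⟩ : ∃ P, P = span k {f₀⁻¹} * V ^ m := ⟨_, rfl⟩
  rw [← hP] at hspan ⊢
  have h1P : (1 : Ω) ∈ P := by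
    rw [hP, ← inv_mul_cancel₀ hf₀0]
    exact mul_mem_mul (mem_span_singleton_self _) hf₀
  obtain ⟨xE, hxE'⟩ : ∃ xE : Fin r → E, xE = fun i => ⟨T.x i, hxE i⟩ := ⟨_, rfl⟩
  obtain ⟨bE, hbE'⟩ : ∃ bE : ι → E, bE = fun i => ⟨T.b i, hbE i⟩ := ⟨_, rfl⟩
  have hxc : ∀ i, (xE i : Ω) = T.x i := fun i => by rw [hxE']
  have hbc : ∀ i, (bE i : Ω) = T.b i := fun i => by rw [hbE']
  have hmxc : ∀ l, ((mx xE l : E) : Ω) = mx T.x l := by
    intro l
    unfold mx
    rw [← IntermediateField.coe_val, map_prod]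
    exact Finset.prod_congr rfl fun i _ => by
      rw [map_zpow₀, IntermediateField.coe_val, hxc]
  have hxE0 : ∀ i, xE i ≠ 0 := fun i h2 => T.x_ne i (by rw [← hxc, h2]; rfl)
  have hbE0 : ∀ i, bE i ≠ 0 := fun i h2 => T.b_ne i (by rw [← hbc, h2]; rfl)
  obtain ⟨f, hf⟩ : ∃ f : ι → E, ∀ j, f j = bE j * mx xE (T.a j) := ⟨_, fun _ => rfl⟩
  have hfc : ∀ j, (f j : Ω) = T.b j * mx T.x (T.a j) := fun j => by
    rw [hf, IntermediateField.coe_mul, hbc, hmxc]
  have hfP : ∀ j, (f j : Ω) ∈ P := fun j => by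
    rw [hfc, ← hspan]; exact subset_span ⟨j, rfl⟩
  have hf0 : ∀ j, (f j : Ω) ≠ 0 := fun j => by
    rw [hfc]; exact mul_ne_zero (T.b_ne j) (mx_ne T.x_ne _)
  have hfV : ∀ j, (((⟨f₀, hf₀E⟩ : E) : Ω)) * f j ∈ V ^ m := by
    intro j
    have h2 := hfP j
    rw [hP] at h2
    have h3 : f₀ * (f j : Ω) ∈ span k {f₀} * (span k {f₀⁻¹} * V ^ m) :=
      mul_mem_mul (mem_span_singleton_self _) h2
    rw [← mul_assoc, span_mul_span, Set.singleton_mul_singleton, mul_inv_cancel₀ hf₀0,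
      ← Submodule.one_eq_span, one_mul] at h3
    exact h3
  obtain ⟨g, hg⟩ : ∃ g : Ω, g = f₀⁻¹ * h₀ ^ (r + D) := ⟨_, rfl⟩
  have hg0 : g ≠ 0 := by
    rw [hg]; exact mul_ne_zero (inv_ne_zero hf₀0) (pow_ne_zero _ hh₀)
  have hqq : ∀ j l, g * (qq d f j l : E) ∈ P ^ (r + D + 2) := by
    intro j l
    have h2 := qq_mem E hVE h1 d hD (g₀ := ⟨f₀, hf₀E⟩) hf₀ f hfV j l
    have h3 : V ^ ((r + D + 1) * m + (r + D) * c₀) ≤ (V ^ m) ^ (r + D + 2) := by
      rw [← pow_mul]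
      refine pow_le_pow_of_one h1 ?_
      calc (r + D + 1) * m + (r + D) * c₀ ≤ (r + D + 1) * m + m := Nat.add_le_add_left hm _
        _ = m * (r + D + 2) := by ring
    have h4 := mul_mem_mul (M := span k {f₀⁻¹} ^ (r + D + 2)) (N := (V ^ m) ^ (r + D + 2))
      (m := f₀⁻¹ ^ (r + D + 2))
      (Submodule.pow_mem_pow _ (mem_span_singleton_self _) _) (h3 h2)
    rw [← mul_pow, ← hP] at h4
    have h5 : f₀⁻¹ ^ (r + D + 2) * (((⟨f₀, hf₀E⟩ : E) : Ω) ^ (r + D + 1) * h₀ ^ (r + D) *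
        (qq d f j l : E)) = g * (qq d f j l : E) := by
      change f₀⁻¹ ^ (r + D + 2) * (f₀ ^ (r + D + 1) * h₀ ^ (r + D) * (qq d f j l : E)) = _
      rw [hg, pow_succ f₀⁻¹ (r + D + 1)]
      have h6 : f₀⁻¹ ^ (r + D + 1) * f₀ ^ (r + D + 1) = 1 := by
        rw [← mul_pow, inv_mul_cancel₀ hf₀0, one_pow]
      calc f₀⁻¹ ^ (r + D + 1) * f₀⁻¹ * (f₀ ^ (r + D + 1) * h₀ ^ (r + D) * (qq d f j l : E)) =
          (f₀⁻¹ ^ (r + D + 1) * f₀ ^ (r + D + 1)) *
            (f₀⁻¹ * h₀ ^ (r + D) * (qq d f j l : E)) := by ring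
        _ = _ := by rw [h6, one_mul]
    rwa [h5] at h4
  refine ⟨fun l => g * (Qc d f α S l : E), fun l => ?_, fun l => ?_, ?_⟩
  · exact Qc_mem_field E d α hScard h1P hfP hqq l
  · rw [hg]
    exact E.mul_mem (E.mul_mem (E.inv_mem hf₀E) (pow_mem hh₀E (r + D))) (Qc d f α S l).2
  · intro c y hy
    have hS : ∀ i, ∀ j, j ∉ S → (α i j : E) = 0 := by
      intro i j hj
      have hcp : CharP E p := charP_of_injective_algebraMap (algebraMap k E).injective p
      rw [CharP.intCast_eq_zero_iff E p]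
      exact hSdvd i j hj
    have hx : ∀ i, xE i = ∏ j, f j ^ α i j := by
      intro i
      apply Subtype.ext
      rw [hxc, hTx]
      change _ = E.val (∏ j, f j ^ α i j)
      rw [map_prod]
      exact Finset.prod_congr rfl fun j _ => by
        rw [map_zpow₀, IntermediateField.coe_val, hfc]
    have hy' : ∀ i, y i = ∑ l, c i l • (bE l - 1) := by
      intro i
      apply Subtype.ext
      rw [hy]
      change _ = E.val (∑ l, c i l • (bE l - 1))
      rw [map_sum]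
      exact Finset.sum_congr rfl fun l _ => by
        rw [map_smul, map_sub, map_one, IntermediateField.coe_val, hbc]
    have h2 := det_Jm d hxE0 hbE0 hf hx hS c hy'
    have h3 : ((Qv d f α S T.a c xE : E) : Ω) = ∑ l : Fin D → ι,
        (∏ i, algebraMap k Ω (c i (l i))) * (Qc d f α S l : E) * mx T.x (-∑ i, T.a (l i)) := by
      unfold Qv
      rw [← IntermediateField.coe_val, map_sum]
      refine Finset.sum_congr rfl fun l _ => ?_
      rw [map_mul, map_mul, map_prod]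
      simp only [IntermediateField.coe_val, hmxc]
      rfl
    have h4 : ((∏ s ∈ S, f s : E) : Ω) = ∏ s ∈ S, (T.b s * mx T.x (T.a s)) := by
      rw [← IntermediateField.coe_val, map_prod]
      exact Finset.prod_congr rfl fun s _ => by rw [IntermediateField.coe_val, hfc]
    rw [← hxE', h2, IntermediateField.coe_mul, IntermediateField.coe_inv, h4, h3]
    have h5 : ∑ l : Fin D → ι, (∏ i, algebraMap k Ω (c i (l i))) * (g * (Qc d f α S l : E)) *
        mx T.x (-∑ i, T.a (l i)) = g * ∑ l : Fin D → ι,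
        (∏ i, algebraMap k Ω (c i (l i))) * (Qc d f α S l : E) * mx T.x (-∑ i, T.a (l i)) := by
      rw [Finset.mul_sum]
      exact Finset.sum_congr rfl fun l _ => by ring
    rw [h5, hg]
    have h6 : h₀ ^ (r + D) ≠ 0 := pow_ne_zero _ hh₀
    field_simp

end JacTD

end Pool.Agent.ALL83
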